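import Pool.Agent.Helper95.BC.Defs

/-!
# Spread out dense vertices: the data

`M` = `m` vertices of degree at least `m - 1`, among them all vertices of degree at least `m`, with
different colours `κ`; no vertex is within distance 2 of many vertices of `M`.
-/

set_option autoImplicit false

namespace Pool.Agent.Helper95.BE

open Pool.Agent.Helper95.BC

/-- `x ≠ y` and the distance of `x` and `y` is at most 2 -/
def Near {V : Type} (G : SimpleGraph V) (y x : V) : Prop :=
  x ≠ y ∧ (G.Adj y x ∨ ∃ w, G.Adj y w ∧ G.Adj w x)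

open Classical in
/-- the vertices of `M` that are near `y` -/
noncomputable def mates {V : Type} (G : SimpleGraph V) (M : Finset V) (y : V) : Finset V :=
  M.filter (fun x => Near G y x)

theorem mem_mates {V : Type} {G : SimpleGraph V} {M : Finset V} {y x : V} :
    x ∈ mates G M y ↔ x ∈ M ∧ Near G y x := by
  classical
  simp [mates]

/-- `z` is outside `M` and has at least two neighbours in `M` -/
def Shared {V : Type} (G : SimpleGraph V) (M : Finset V) (z : V) : Prop :=
  z ∉ M ∧ ∃ x ∈ M, ∃ x' ∈ M, x ≠ x' ∧ G.Adj x z ∧ G.Adj x' z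

/-- `v` is outside `M` and `x` is its only neighbour in `M` -/
def Priv {V : Type} (G : SimpleGraph V) (M : Finset V) (x v : V) : Prop :=
  v ∉ M ∧ G.Adj x v ∧ ∀ x' ∈ M, G.Adj x' v → x' = x

open Classical in
/-- the shared neighbours of `x` -/
noncomputable def srow {V : Type} [Fintype V] (G : SimpleGraph V) (M : Finset V) (x : V) :
    Finset V :=
  Finset.univ.filter (fun z => Shared G M z ∧ G.Adj x z)

theorem mem_srow {V : Type} [Fintype V] {G : SimpleGraph V} {M : Finset V} {x z : V} :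
    z ∈ srow G M x ↔ Shared G M z ∧ G.Adj x z := by
  simp [srow]

open Classical in
/-- the neighbours of `x` in `M` -/
noncomputable def mrow {V : Type} (G : SimpleGraph V) (M : Finset V) (x : V) : Finset V :=
  M.filter (fun x' => G.Adj x x')

theorem mem_mrow {V : Type} {G : SimpleGraph V} {M : Finset V} {x x' : V} :
    x' ∈ mrow G M x ↔ x' ∈ M ∧ G.Adj x x' := by
  classical
  simp [mrow]

/-- the system: for `x ∈ M` the set `P x` of private neighbours that will be coloured -/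
structure Sys {V C : Type} [Fintype V] [Fintype C] (G : SimpleGraph V) (m : ℕ)
    (M : Finset V) (κ : V → C) (P : V → Finset V) : Prop where
  c4 : C4Free G
  cardC : Fintype.card C = m
  cardM : M.card = m
  deg : ∀ v, v ∉ M → (nbr G v).card ≤ m
  kinj : Set.InjOn κ (M : Set V)
  priv : ∀ x ∈ M, ∀ v ∈ P x, Priv G M x v
  pcard : ∀ x ∈ M, (P x).card + (mrow G M x).card + (srow G M x).card + 1 = m
  nearM : ∀ x ∈ M, 40 * (mates G M x).card ≤ m
  nearS : ∀ z, Shared G M z → 40 * (mates G M z).card ≤ m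
  nearP : ∀ x ∈ M, ∀ v ∈ P x, 40 * (mates G M v).card ≤ m

/-- the colours of the shared vertices -/
structure SharedCol {V C : Type} (G : SimpleGraph V) (M : Finset V) (κ : V → C) (f : V → C) :
    Prop where
  cen : ∀ z, Shared G M z → ∀ x ∈ M, G.Adj x z → f z ≠ κ x
  hr : ∀ z, Shared G M z → ∀ x ∈ M, G.Adj x z → ∀ x' ∈ M, G.Adj x x' → f z ≠ κ x'
  row : ∀ z z', Shared G M z → Shared G M z' → z ≠ z' →
    (∃ x ∈ M, G.Adj x z ∧ G.Adj x z') → f z ≠ f z'
  adj : ∀ z z', Shared G M z → Shared G M z' → G.Adj z z' → f z ≠ f z'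

/-- the colours `g v` of the private vertices `v ∈ P x` -/
structure RowOK {V C : Type} (G : SimpleGraph V) (M : Finset V) (κ : V → C) (P : V → Finset V)
    (f : V → C) (x : V) (g : V → C) : Prop where
  cen : ∀ v ∈ P x, g v ≠ κ x
  hr : ∀ v ∈ P x, ∀ x' ∈ M, G.Adj x x' → g v ≠ κ x'
  sr : ∀ v ∈ P x, ∀ z, Shared G M z → G.Adj x z → g v ≠ f z
  sn : ∀ v ∈ P x, ∀ z, Shared G M z → G.Adj v z → g v ≠ f z
  inj : ∀ v ∈ P x, ∀ v' ∈ P x, v ≠ v' → g v ≠ g v'

/-- adjacent vertices of `P x` and `P x'` get different colours -/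
def PairOK {V C : Type} (G : SimpleGraph V) (P : V → Finset V) (g : V → V → C) (x x' : V) : Prop :=
  ∀ v ∈ P x, ∀ v' ∈ P x', G.Adj v v' → g x v ≠ g x' v'

open Classical in
/-- the number of neighbours of `z` in `M` -/
noncomputable def rank {V : Type} (G : SimpleGraph V) (M : Finset V) (z : V) : ℕ :=
  (M.filter (fun x => G.Adj x z)).card

open Classical in
/-- the colours for the vertices of `P x` -/
noncomputable def needs {V C : Type} [Fintype C] (G : SimpleGraph V) (M : Finset V)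
    (κ : V → C) (f : V → C) (x : V) : Finset C :=
  Finset.univ.filter (fun a => a ≠ κ x ∧ (∀ x' ∈ M, G.Adj x x' → a ≠ κ x') ∧
    ∀ z, Shared G M z → G.Adj x z → a ≠ f z)

theorem mem_needs {V C : Type} [Fintype C] {G : SimpleGraph V} {M : Finset V}
    {κ : V → C} {f : V → C} {x : V} {a : C} :
    a ∈ needs G M κ f x ↔ a ≠ κ x ∧ (∀ x' ∈ M, G.Adj x x' → a ≠ κ x') ∧
      ∀ z, Shared G M z → G.Adj x z → a ≠ f z := by
  simp [needs]

/-- the pairs that are forbidden in the row `x` when the rows in `S` are coloured -/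
def Forb {V C : Type} (G : SimpleGraph V) (M : Finset V) (P : V → Finset V)
    (f : V → C) (S : Finset V) (g : V → V → C) (v : V) (a : C) : Prop :=
  (∃ z, Shared G M z ∧ G.Adj v z ∧ f z = a) ∨ ∃ x' ∈ S, ∃ v' ∈ P x', G.Adj v v' ∧ g x' v' = a

/-- the vertex of `P x` coloured `p.2` is adjacent to a vertex of `P p.1` -/
def Hit {V C : Type} (G : SimpleGraph V) (P : V → Finset V) (x : V) (g : V → C) (p : V × C) :
    Prop :=
  ∃ v ∈ P x, g v = p.2 ∧ ∃ v' ∈ P p.1, G.Adj v v'

open Classical in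
/-- the number of vertices of `P x` with a neighbour in `P x'` -/
noncomputable def cross {V : Type} (G : SimpleGraph V) (P : V → Finset V) (x x' : V) : ℕ :=
  ((P x).filter (fun v => ∃ v' ∈ P x', G.Adj v v')).card

section

variable {V C : Type} [Fintype V] [Fintype C] {G : SimpleGraph V} {m : ℕ}
  {M : Finset V} {κ : V → C} {P : V → Finset V}

/-- two vertices `y ≠ y'` have at most one common neighbour -/
theorem Sys.unique (hS : Sys G m M κ P) {y y' v v' : V} (hy : y ≠ y')
    (h1 : G.Adj y v) (h2 : G.Adj y' v) (h3 : G.Adj y v') (h4 : G.Adj y' v') : v = v' := by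
  by_contra hne
  exact hS.c4 y y' v v' hy hne h1 h2.symm h4 h3.symm

omit [Fintype V] [Fintype C] in
theorem shared_or_priv {x : V} (hx : x ∈ M) {v : V}
    (hv : v ∉ M) (hxv : G.Adj x v) : Shared G M v ∨ Priv G M x v := by
  by_cases h : ∀ x' ∈ M, G.Adj x' v → x' = x
  · exact Or.inr ⟨hv, hxv, h⟩
  · push Not at h
    obtain ⟨x', hx', h1, h2⟩ := h
    exact Or.inl ⟨hv, x, hx, x', hx', Ne.symm h2, hxv, h1⟩

omit [Fintype V] [Fintype C] in
theorem Shared.not_priv {z : V} (hz : Shared G M z) {x : V} :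
    ¬ Priv G M x z := by
  rintro ⟨_, _, h⟩
  obtain ⟨_, c1, h1, c2, h2, hne, h3, h4⟩ := hz
  exact hne ((h c1 h1 h3).trans (h c2 h2 h4).symm)

open Classical in
/-- the neighbours of `y` outside `M` that have a neighbour in `M` different from `y` are at most as
many as the mates of `y` -/
theorem item_nbrs (hC4 : C4Free G) (M : Finset V) (y : V) :
    (Finset.univ.filter (fun w => w ∉ M ∧ G.Adj y w ∧
      ∃ x ∈ M, x ≠ y ∧ G.Adj x w)).card ≤ (mates G M y).card := by
  have hch : ∀ w, ∃ x, w ∈ Finset.univ.filter (fun w => w ∉ M ∧ G.Adj y w ∧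
      ∃ x ∈ M, x ≠ y ∧ G.Adj x w) → x ∈ M ∧ x ≠ y ∧ G.Adj x w := by
    intro w
    by_cases hw : w ∈ Finset.univ.filter (fun w => w ∉ M ∧ G.Adj y w ∧
      ∃ x ∈ M, x ≠ y ∧ G.Adj x w)
    · obtain ⟨x, h1, h2, h3⟩ := (Finset.mem_filter.1 hw).2.2.2
      exact ⟨x, fun _ => ⟨h1, h2, h3⟩⟩
    · exact ⟨y, fun h => absurd h hw⟩
  choose F hF using hch
  refine Finset.card_le_card_of_injOn F ?_ ?_
  · intro w hw
    have hw1 : w ∈ Finset.univ.filter (fun w => w ∉ M ∧ G.Adj y w ∧
      ∃ x ∈ M, x ≠ y ∧ G.Adj x w) := hw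
    have hw' := (Finset.mem_filter.1 hw1).2
    obtain ⟨h1, h2, h3⟩ := hF w hw1
    rw [Finset.mem_coe, mem_mates]
    exact ⟨h1, h2, Or.inr ⟨w, hw'.2.1, h3.symm⟩⟩
  · intro w hw w' hw' h
    have hw1 : w ∈ Finset.univ.filter (fun w => w ∉ M ∧ G.Adj y w ∧
      ∃ x ∈ M, x ≠ y ∧ G.Adj x w) := hw
    have hw1' : w' ∈ Finset.univ.filter (fun w => w ∉ M ∧ G.Adj y w ∧
      ∃ x ∈ M, x ≠ y ∧ G.Adj x w) := hw'
    have h1 := (Finset.mem_filter.1 hw1).2
    have h2 := (Finset.mem_filter.1 hw1').2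
    obtain ⟨_, h4, h5⟩ := hF w hw1
    obtain ⟨_, _, h8⟩ := hF w' hw1'
    rw [← h] at h8
    by_contra hne
    exact hC4 (F w) y w w' h4 hne h5 h1.2.1.symm h2.2.1 h8.symm

end

end Pool.Agent.Helper95.BE
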