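import Pool.Agent.Helper95.BE.S0

/-!
# The sets `P x`
-/

set_option autoImplicit false

namespace Pool.Agent.Helper95.BE

open Pool.Agent.Helper95.BC

open Classical in
theorem choose_P {V : Type} [Fintype V] (G : SimpleGraph V) (m : ℕ) (M : Finset V)
    (N : V → Finset V) (hN : ∀ x ∈ M, N x ⊆ nbr G x)
    (hN2 : ∀ x ∈ M, m ≤ (N x).card + 1) (hrow : ∀ x ∈ M, (mrow G M x).card +
      (srow G M x).card + 1 ≤ m) :
    ∃ P : V → Finset V, (∀ x ∈ M, P x ⊆ N x) ∧ (∀ x ∈ M, ∀ v ∈ P x, Priv G M x v) ∧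
      ∀ x ∈ M, (P x).card + (mrow G M x).card + (srow G M x).card + 1 = m := by
  have h : ∀ x, ∃ Q : Finset V, x ∈ M → (Q ⊆ N x ∧ (∀ v ∈ Q, Priv G M x v) ∧
      Q.card + (mrow G M x).card + (srow G M x).card + 1 = m) := by
    intro x
    by_cases hx : x ∈ M
    · have h1 : m - 1 - (mrow G M x).card - (srow G M x).card ≤
          (N x \ (mrow G M x ∪ srow G M x)).card := by
        have h2 := Finset.le_card_sdiff (mrow G M x ∪ srow G M x) (N x)
        have h3 := Finset.card_union_le (mrow G M x) (srow G M x)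
        have h4 := hN2 x hx
        omega
      obtain ⟨Q, hQ, hQc⟩ := Finset.exists_subset_card_eq h1
      refine ⟨Q, fun _ => ⟨fun v hv => (Finset.mem_sdiff.1 (hQ hv)).1, fun v hv => ?_, ?_⟩⟩
      · have h5 := Finset.mem_sdiff.1 (hQ hv)
        have h6 : G.Adj x v := mem_nbr.1 (hN x hx h5.1)
        have h7 : v ∉ M := fun h8 => h5.2 (Finset.mem_union_left _ (mem_mrow.2 ⟨h8, h6⟩))
        rcases shared_or_priv hx h7 h6 with h8 | h8
        · exact absurd (Finset.mem_union_right _ (mem_srow.2 ⟨h8, h6⟩)) h5.2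
        · exact h8
      · have h5 := hrow x hx
        omega
    · exact ⟨∅, fun h => absurd h hx⟩
  choose P hP using h
  exact ⟨P, fun x hx => (hP x hx).1, fun x hx => (hP x hx).2.1, fun x hx => (hP x hx).2.2⟩

open Classical in
theorem row_cards {V : Type} [Fintype V] (G : SimpleGraph V) (hC4 : C4Free G) (M : Finset V) (x : V)
    (hx : x ∈ M) : (mrow G M x).card ≤ (mates G M x).card ∧
      (srow G M x).card ≤ (mates G M x).card := by
  constructor
  · refine Finset.card_le_card fun x' hx' => ?_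
    rw [mem_mrow] at hx'
    exact mem_mates.2 ⟨hx'.1, hx'.2.ne', Or.inl hx'.2⟩
  · refine le_trans (Finset.card_le_card fun z hz => ?_) (item_nbrs hC4 M x)
    rw [mem_srow] at hz
    obtain ⟨⟨hzM, a, ha, b, hb, hab, haz, hbz⟩, hxz⟩ := hz
    refine Finset.mem_filter.2 ⟨Finset.mem_univ _, hzM, hxz, ?_⟩
    by_cases h : a = x
    · exact ⟨b, hb, fun e => hab (h.trans e.symm), hbz⟩
    · exact ⟨a, ha, h, haz⟩

end Pool.Agent.Helper95.BE
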