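import Pool.Agent.Helper95.BE.S0
import Pool.Agent.Helper95.BC.S1

/-!
# The choice of `M`, second version
-/

set_option autoImplicit false

namespace Pool.Agent.Helper95.BE

open Pool.Agent.Helper95.BC

private theorem s3c_mates_mono {V : Type} (G : SimpleGraph V) {M D : Finset V} (h : M ⊆ D) (y : V) :
    (mates G M y).card ≤ (mates G D y).card :=
  Finset.card_le_card fun _ hx => mem_mates.2 ⟨h (mem_mates.1 hx).1, (mem_mates.1 hx).2⟩

open Classical in
/-- the number of vertices that are watched -/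
private theorem s3c_card {V : Type} [Fintype V] (G : SimpleGraph V) (hC4 : C4Free G) (m : ℕ)
    (hm : 100 ≤ m) (D B Y : Finset V) (N : V → Finset V) (hN : ∀ x ∈ D, (N x).card ≤ 2 * m)
    (hD2 : D.card ≤ 400 * m ^ 2) (hB : B.card ≤ 200 * m ^ 2)
    (hY : ∀ y ∈ Y, y ∈ D ∨ y ∈ B ∨ (∃ x ∈ D, ∃ x' ∈ D, x ≠ x' ∧ G.Adj x y ∧ G.Adj x' y) ∨
      ∃ x ∈ D, y ∈ N x) :
    Y.card ≤ 200000 * m ^ 4 := by
  have hsub : Y ⊆ ((D ∪ B) ∪ (D ×ˢ D).biUnion (fun p => Finset.univ.filter
      (fun y => p.1 ≠ p.2 ∧ G.Adj p.1 y ∧ G.Adj p.2 y))) ∪ D.biUnion N := by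
    intro y hy
    rcases hY y hy with h | h | ⟨x, hx, x', hx', hne, h3, h4⟩ | ⟨x, hx, h⟩
    · exact Finset.mem_union_left _ (Finset.mem_union_left _ (Finset.mem_union_left _ h))
    · exact Finset.mem_union_left _ (Finset.mem_union_left _ (Finset.mem_union_right _ h))
    · exact Finset.mem_union_left _ (Finset.mem_union_right _
        (Finset.mem_biUnion.2 ⟨(x, x'), Finset.mem_product.2 ⟨hx, hx'⟩,
          Finset.mem_filter.2 ⟨Finset.mem_univ _, hne, h3, h4⟩⟩))
    · exact Finset.mem_union_right _ (Finset.mem_biUnion.2 ⟨x, hx, h⟩)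
  have e1 : ((D ×ˢ D).biUnion (fun p => Finset.univ.filter
      (fun y => p.1 ≠ p.2 ∧ G.Adj p.1 y ∧ G.Adj p.2 y))).card ≤ D.card * D.card * 1 := by
    rw [← Finset.card_product]
    refine Finset.card_biUnion_le_card_mul _ _ 1 ?_
    rintro ⟨x, x'⟩ _
    refine Finset.card_le_one.2 ?_
    intro a ha b hb
    obtain ⟨-, hne, a1, a2⟩ := Finset.mem_filter.1 ha
    obtain ⟨-, -, b1, b2⟩ := Finset.mem_filter.1 hb
    by_contra hab
    exact hC4 x x' a b hne hab a1 a2.symm b2 b1.symm
  have e2 : (D.biUnion N).card ≤ D.card * (2 * m) := Finset.card_biUnion_le_card_mul _ _ _ hN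
  have e3 : Y.card ≤ (D.card + B.card) + D.card * D.card * 1 + D.card * (2 * m) :=
    (Finset.card_le_card hsub).trans ((Finset.card_union_le _ _).trans
      (Nat.add_le_add ((Finset.card_union_le _ _).trans
        (Nat.add_le_add (Finset.card_union_le _ _) e1)) e2))
  have e4 : D.card * D.card ≤ (400 * m ^ 2) * (400 * m ^ 2) := Nat.mul_le_mul hD2 hD2
  have e5 : D.card * (2 * m) ≤ (400 * m ^ 2) * (2 * m) := Nat.mul_le_mul_right _ hD2
  have e6 : (400 * m ^ 2) * (400 * m ^ 2) = 160000 * m ^ 4 := by ring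
  have e7 : (400 * m ^ 2) * (2 * m) = 800 * m ^ 3 := by ring
  have e8 : 100 * m ^ 3 ≤ m ^ 4 := by
    have : m ^ 4 = m * m ^ 3 := by ring
    rw [this]
    exact Nat.mul_le_mul_right _ hm
  have e9 : 100 * m ^ 2 ≤ m ^ 3 := by
    have : m ^ 3 = m * m ^ 2 := by ring
    rw [this]
    exact Nat.mul_le_mul_right _ hm
  omega

open Classical in
/-- the greedy choice of the other vertices -/
private theorem s3c_greedy {ι V : Type} [Nonempty V] (G : SimpleGraph V) (m : ℕ)
    (H D Y : Finset V) (hH : H.card ≤ m) (hbig : 2 * m < D.card) (I : Finset ι)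
    (hI : I.card + H.card = m) (h1 : ∀ y, 200 * (mates G D y).card ≤ D.card) :
    ∃ f : ι → V, ((∀ i ∈ I, f i ∈ D) ∧ (∀ i ∈ I, f i ∉ H) ∧ Set.InjOn f (I : Set ι)) ∧
      ∀ y ∈ Y, (11 / 10 : ℝ) ^ (I.filter (fun i => Near G y (f i))).card ≤
        Y.card * ∏ _i ∈ I, (1 + (1 / 100 : ℝ) / 10) := by
  refine greedy_gen (ι := ι) (α := V) (γ := V) (fun _ => 0) Y
    (fun _ _ => (1 / 100 : ℝ)) (fun _ _ => by norm_num) (fun _ v y => Near G y v)
    (fun S f => (∀ i ∈ S, f i ∈ D) ∧ (∀ i ∈ S, f i ∉ H) ∧ Set.InjOn f (S : Set ι))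
    ⟨fun _ => Classical.arbitrary V, by simp⟩ I (by
      intro S hS i hi hiS _ f hf _
      obtain ⟨f1, f2, f3⟩ := hf
      set A : Finset V := (D \ H) \ S.image f with hA
      have hScard : S.card + H.card ≤ m := by
        have := Finset.card_le_card hS
        omega
      have hAcard : D.card ≤ 2 * A.card := by
        have e1 : (D \ H).card - (S.image f).card ≤ A.card := Finset.le_card_sdiff _ _
        have e2 : D.card - H.card ≤ (D \ H).card := Finset.le_card_sdiff _ _
        have e3 : (S.image f).card ≤ S.card := Finset.card_image_le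
        omega
      have hupd : ∀ a : V, ∀ i' ∈ S, Function.update f i a i' = f i' := by
        intro a i' hi'
        refine Function.update_of_ne ?_ _ _
        rintro rfl
        exact hiS hi'
      have hAm : ∀ a ∈ A, a ∈ D ∧ a ∉ H ∧ ∀ i' ∈ S, f i' ≠ a := by
        intro a ha
        obtain ⟨ha1, ha2⟩ := Finset.mem_sdiff.1 ha
        obtain ⟨ha3, ha4⟩ := Finset.mem_sdiff.1 ha1
        exact ⟨ha3, ha4, fun i' hi' h => ha2 (Finset.mem_image.2 ⟨i', hi', h⟩)⟩
      refine ⟨A, ?_, ?_, ?_⟩
      · refine Finset.card_pos.1 ?_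
        omega
      · intro a ha
        obtain ⟨a1, a2, a3⟩ := hAm a ha
        refine ⟨?_, ?_, ?_⟩
        · intro i' hi'
          rcases Finset.mem_insert.1 hi' with rfl | hi'
          · rw [Function.update_self]
            exact a1
          · rw [hupd a i' hi']
            exact f1 i' hi'
        · intro i' hi'
          rcases Finset.mem_insert.1 hi' with rfl | hi'
          · rw [Function.update_self]
            exact a2
          · rw [hupd a i' hi']
            exact f2 i' hi'
        · intro i1 hi1 i2 hi2 h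
          rw [Finset.mem_coe] at hi1 hi2
          rcases Finset.mem_insert.1 hi1 with e1 | hi1'
          · rcases Finset.mem_insert.1 hi2 with e2 | hi2'
            · rw [e1, e2]
            · rw [e1, Function.update_self, hupd a i2 hi2'] at h
              exact absurd h.symm (a3 i2 hi2')
          · rcases Finset.mem_insert.1 hi2 with e2 | hi2'
            · rw [e2, Function.update_self, hupd a i1 hi1'] at h
              exact absurd h (a3 i1 hi1')
            · rw [hupd a i1 hi1', hupd a i2 hi2'] at h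
              exact f3 hi1' hi2' h
      · intro y _
        have e1 : (A.filter (fun a => Near G y a)).card ≤ (mates G D y).card := by
          refine Finset.card_le_card fun a ha => ?_
          obtain ⟨ha1, ha2⟩ := Finset.mem_filter.1 ha
          exact mem_mates.2 ⟨(hAm a ha1).1, ha2⟩
        have e2 := h1 y
        have e3 : 100 * (A.filter (fun a => Near G y a)).card ≤ A.card := by omega
        have e4 : (100 : ℝ) * ((A.filter (fun a => Near G y a)).card : ℝ) ≤ (A.card : ℝ) := by
          exact_mod_cast e3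
        linarith)

open Classical in
theorem choose_M' (m : ℕ) (hm : 100 ≤ m)
    (hload : ∀ t : ℕ, (11 / 10 : ℝ) ^ t ≤ 200000 * (m : ℝ) ^ 4 * Real.exp ((1 / 1000) * m) →
      60 * t ≤ m) (V : Type) [Fintype V] (G : SimpleGraph V) (hC4 : C4Free G) (H D B : Finset V)
    (N : V → Finset V) (hN : ∀ x ∈ D, (N x).card ≤ 2 * m) (hHD : H ⊆ D) (hH : H.card ≤ m)
    (hD : m ≤ D.card) (hD2 : D.card ≤ 400 * m ^ 2) (hB : B.card ≤ 200 * m ^ 2)
    (h1 : ∀ y, 200 * (mates G D y).card ≤ D.card) (h2 : ∀ y, 200 * (mates G H y).card ≤ m + 1) :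
    ∃ M : Finset V, H ⊆ M ∧ M ⊆ D ∧ M.card = m ∧ ∀ y,
      (y ∈ D ∨ y ∈ B ∨ (∃ x ∈ D, ∃ x' ∈ D, x ≠ x' ∧ G.Adj x y ∧ G.Adj x' y) ∨ ∃ x ∈ D, y ∈ N x) →
      40 * (mates G M y).card ≤ m := by
  rcases Nat.lt_or_ge (2 * m) D.card with hbig | hsmall
  swap
  · obtain ⟨M, hHM, hMD, hMc⟩ := Finset.exists_subsuperset_card_eq hHD hH hD
    refine ⟨M, hHM, hMD, hMc, fun y _ => ?_⟩
    have e1 := s3c_mates_mono G hMD y
    have e2 := h1 y
    omega
  have hne : Nonempty V := by
    have : D.Nonempty := Finset.card_pos.1 (by omega)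
    exact ⟨this.choose⟩
  -- the vertices that are watched
  set Y : Finset V := Finset.univ.filter
    (fun y => y ∈ D ∨ y ∈ B ∨ (∃ x ∈ D, ∃ x' ∈ D, x ≠ x' ∧ G.Adj x y ∧ G.Adj x' y) ∨
      ∃ x ∈ D, y ∈ N x)
    with hYdef
  have hYcard : Y.card ≤ 200000 * m ^ 4 :=
    s3c_card G hC4 m hm D B Y N hN hD2 hB (fun y hy => (Finset.mem_filter.1 hy).2)
  obtain ⟨f, ⟨g1, g2, g3⟩, g4⟩ := s3c_greedy G m H D Y hH hbig (Finset.range (m - H.card))
    (by rw [Finset.card_range]; omega) h1
  have himg : Disjoint H ((Finset.range (m - H.card)).image f) := by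
    rw [Finset.disjoint_left]
    intro a ha hb
    obtain ⟨i, hi, rfl⟩ := Finset.mem_image.1 hb
    exact g2 i hi ha
  refine ⟨H ∪ (Finset.range (m - H.card)).image f, Finset.subset_union_left, ?_, ?_, ?_⟩
  · intro a ha
    rcases Finset.mem_union.1 ha with h | h
    · exact hHD h
    · obtain ⟨i, hi, rfl⟩ := Finset.mem_image.1 h
      exact g1 i hi
  · rw [Finset.card_union_of_disjoint himg, Finset.card_image_of_injOn g3, Finset.card_range]
    omega
  · intro y hy
    have hyY : y ∈ Y := Finset.mem_filter.2 ⟨Finset.mem_univ _, hy⟩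
    have h6 := g4 y hyY
    have h7 : ∏ _i ∈ Finset.range (m - H.card), (1 + (1 / 100 : ℝ) / 10) ≤
        Real.exp (((1 / 100 : ℝ) * m) / 10) := by
      refine prod_le_exp (Finset.range (m - H.card)) (Finset.range (m - H.card))
        (Finset.Subset.refl _) (fun _ => (1 / 100 : ℝ)) (fun _ => by norm_num) _ ?_
      rw [Finset.sum_const, nsmul_eq_mul, Finset.card_range]
      have : ((m - H.card : ℕ) : ℝ) ≤ (m : ℝ) := by exact_mod_cast Nat.sub_le _ _
      linarith
    have h9 : (Y.card : ℝ) ≤ 200000 * (m : ℝ) ^ 4 := by exact_mod_cast hYcard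
    have h10 : ((1 / 100 : ℝ) * m) / 10 = (1 / 1000) * m := by ring
    rw [h10] at h7
    have h11 := hload _ (h6.trans (mul_le_mul h9 h7
      (Finset.prod_nonneg fun _ _ => by norm_num) (by positivity)))
    have h12 : (mates G (H ∪ (Finset.range (m - H.card)).image f) y).card ≤
        (mates G H y).card + ((Finset.range (m - H.card)).filter
          (fun i => Near G y (f i))).card := by
      have hsub : mates G (H ∪ (Finset.range (m - H.card)).image f) y ⊆
          mates G H y ∪ ((Finset.range (m - H.card)).filter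
            (fun i => Near G y (f i))).image f := by
        intro x hx
        obtain ⟨hx1, hx2⟩ := mem_mates.1 hx
        rcases Finset.mem_union.1 hx1 with h | h
        · exact Finset.mem_union_left _ (mem_mates.2 ⟨h, hx2⟩)
        · obtain ⟨i, hi, rfl⟩ := Finset.mem_image.1 h
          exact Finset.mem_union_right _
            (Finset.mem_image.2 ⟨i, Finset.mem_filter.2 ⟨hi, hx2⟩, rfl⟩)
      exact (Finset.card_le_card hsub).trans ((Finset.card_union_le _ _).trans
        (Nat.add_le_add_left Finset.card_image_le _))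
    have h13 := h2 y
    omega

end Pool.Agent.Helper95.BE
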