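import Pool.Agent.Helper95.BE.S0

/-!
# Counting shared vertices in the rows
-/

set_option autoImplicit false

namespace Pool.Agent.Helper95.BE

open Pool.Agent.Helper95.BC

section

variable {V C : Type} [Fintype V] [Fintype C] {G : SimpleGraph V} {m : ℕ}
  {M : Finset V} {κ : V → C} {P : V → Finset V}

omit [Fintype V] in
open Classical in
/-- the neighbours of `z` in `M` different from `x` are mates of `x` -/
theorem s6a_sub {z x : V} (hxz : G.Adj x z) :
    (M.filter (fun x' => G.Adj x' z)).erase x ⊆ mates G M x := by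
  intro x' hx'
  obtain ⟨h1, h2⟩ := Finset.mem_erase.1 hx'
  obtain ⟨h3, h4⟩ := Finset.mem_filter.1 h2
  rw [mem_mates]
  exact ⟨h3, h1, Or.inr ⟨z, hxz, SimpleGraph.Adj.symm h4⟩⟩

omit [Fintype V] in
open Classical in
theorem s6a_card (z : V) {x : V} (hx : x ∈ M) (hxz : G.Adj x z) :
    ((M.filter (fun x' => G.Adj x' z)).erase x).card = rank G M z - 1 := by
  rw [Finset.card_erase_of_mem (Finset.mem_filter.2 ⟨hx, hxz⟩)]
  rfl

omit [Fintype V] in
/-- a shared vertex has rank at least 2 -/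
theorem s6a_two {z : V} (hz : Shared G M z) : 2 ≤ rank G M z := by
  classical
  obtain ⟨_, x, hx, x', hx', hne, h1, h2⟩ := hz
  unfold rank
  have h5 : ({x, x'} : Finset V) ⊆ M.filter (fun x => G.Adj x z) := by
    intro a ha
    rcases Finset.mem_insert.1 ha with ha | ha
    · rw [ha]
      exact Finset.mem_filter.2 ⟨hx, h1⟩
    · rw [Finset.mem_singleton.1 ha]
      exact Finset.mem_filter.2 ⟨hx', h2⟩
  have h6 := Finset.card_le_card h5
  rw [Finset.card_pair hne] at h6
  exact h6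

open Classical in
/-- one row: `z'` of rank at least `r` in the row `x` use `r - 1` mates of `x` each -/
theorem s6a_row (hS : Sys G m M κ P) (r : ℕ) (S : Finset V)
    (hrk : ∀ z' ∈ S, r ≤ rank G M z')
    {x : V} (hx : x ∈ M) :
    40 * ((S.filter (fun z' => G.Adj x z')).card * (r - 1)) ≤ m := by
  have h1 : ∀ z' ∈ S.filter (fun z' => G.Adj x z'),
      r - 1 ≤ ((M.filter (fun x' => G.Adj x' z')).erase x).card := by
    intro z' hz'
    obtain ⟨h2, h3⟩ := Finset.mem_filter.1 hz'
    rw [s6a_card z' hx h3]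
    have h4 := hrk z' h2
    omega
  have h2 : (S.filter (fun z' => G.Adj x z')).card * (r - 1) ≤
      ∑ z' ∈ S.filter (fun z' => G.Adj x z'),
        ((M.filter (fun x' => G.Adj x' z')).erase x).card := by
    have h3 := Finset.card_nsmul_le_sum (S.filter (fun z' => G.Adj x z'))
      (fun z' => ((M.filter (fun x' => G.Adj x' z')).erase x).card) (r - 1) h1
    rwa [smul_eq_mul] at h3
  have h3 : ((S.filter (fun z' => G.Adj x z')).biUnion
      (fun z' => (M.filter (fun x' => G.Adj x' z')).erase x)).card =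
      ∑ z' ∈ S.filter (fun z' => G.Adj x z'),
        ((M.filter (fun x' => G.Adj x' z')).erase x).card := by
    apply Finset.card_biUnion
    intro z1 hz1 z2 hz2 hne
    refine Finset.disjoint_left.2 ?_
    intro x' hc1 hc2
    obtain ⟨_, h5⟩ := Finset.mem_filter.1 (Finset.mem_coe.1 hz1)
    obtain ⟨_, h6⟩ := Finset.mem_filter.1 (Finset.mem_coe.1 hz2)
    obtain ⟨h7, h8⟩ := Finset.mem_erase.1 hc1
    obtain ⟨_, h9⟩ := Finset.mem_erase.1 hc2
    obtain ⟨_, h11⟩ := Finset.mem_filter.1 h8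
    obtain ⟨_, h12⟩ := Finset.mem_filter.1 h9
    exact hne (hS.unique (Ne.symm h7) h5 h11 h6 h12)
  have h4 : (S.filter (fun z' => G.Adj x z')).biUnion
      (fun z' => (M.filter (fun x' => G.Adj x' z')).erase x) ⊆ mates G M x := by
    intro x' hx'
    obtain ⟨z', hz', h5⟩ := Finset.mem_biUnion.1 hx'
    obtain ⟨_, h7⟩ := Finset.mem_filter.1 hz'
    exact s6a_sub h7 h5
  have h5 := Finset.card_le_card h4
  have h6 := hS.nearM x hx
  omega

open Classical in
/-- for each of the r neighbours x ∈ M of z, the z' of higher rank in the row x use r - 1 or more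
mates of x each, disjoint for different z' (C4-free): at most m / (40 (r - 1)) such z' -/
theorem Sys.row_rank (hS : Sys G m M κ P) {z : V} (hz : Shared G M z)
    (S : Finset V) (hSh : ∀ z' ∈ S, Shared G M z')
    (hrk : ∀ z' ∈ S, rank G M z ≤ rank G M z') :
    20 * (S.filter (fun z' => z' ≠ z ∧ ∃ x ∈ M, G.Adj x z ∧ G.Adj x z')).card ≤ m := by
  have h2 := s6a_two hz
  have h3 : S.filter (fun z' => z' ≠ z ∧ ∃ x ∈ M, G.Adj x z ∧ G.Adj x z') ⊆
      (M.filter (fun x => G.Adj x z)).biUnion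
        (fun x => S.filter (fun z' => G.Adj x z')) := by
    intro z' hz'
    obtain ⟨h4, _, x, hx, h5, h6⟩ := Finset.mem_filter.1 hz'
    exact Finset.mem_biUnion.2 ⟨x, Finset.mem_filter.2 ⟨hx, h5⟩, Finset.mem_filter.2 ⟨h4, h6⟩⟩
  have h4 := (Finset.card_le_card h3).trans Finset.card_biUnion_le
  have h5 : ∑ x ∈ M.filter (fun x => G.Adj x z),
      40 * ((S.filter (fun z' => G.Adj x z')).card * (rank G M z - 1)) ≤
      (M.filter (fun x => G.Adj x z)).card * m := by
    have h6 := Finset.sum_le_card_nsmul (M.filter (fun x => G.Adj x z))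
      (fun x => 40 * ((S.filter (fun z' => G.Adj x z')).card * (rank G M z - 1))) m
      (fun x hx => s6a_row hS (rank G M z) S hrk (Finset.mem_filter.1 hx).1)
    rwa [smul_eq_mul] at h6
  have h6 : (M.filter (fun x => G.Adj x z)).card = rank G M z := rfl
  rw [h6, ← Finset.mul_sum, ← Finset.sum_mul] at h5
  obtain ⟨k, hk⟩ : ∃ k, rank G M z = k + 1 := ⟨rank G M z - 1, by omega⟩
  rw [hk] at h5 h2
  obtain ⟨σ, hσ⟩ : ∃ σ, σ = ∑ x ∈ M.filter (fun x => G.Adj x z),
      (S.filter (fun z' => G.Adj x z')).card := ⟨_, rfl⟩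
  rw [← hσ] at h4 h5
  rw [Nat.add_sub_cancel] at h5
  have h7 : (2 * k) * (20 * σ) ≤ (2 * k) * m := by
    calc (2 * k) * (20 * σ) = 40 * (σ * k) := by ring
      _ ≤ (k + 1) * m := h5
      _ ≤ (2 * k) * m := Nat.mul_le_mul_right m (by omega)
  have h8 := Nat.le_of_mul_le_mul_left h7 (by omega)
  omega

open Classical in
/-- z shared with a neighbour v ∈ P x: for each v ∈ P x (at most m) it is one of the at most m / 40
item_nbrs of v -/
theorem Sys.near_count (hS : Sys G m M κ P) {x : V} (hx : x ∈ M) :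
    40 * (Finset.univ.filter (fun z => Shared G M z ∧ ∃ v ∈ P x, G.Adj v z)).card ≤ m * m := by
  have h1 : Finset.univ.filter (fun z => Shared G M z ∧ ∃ v ∈ P x, G.Adj v z) ⊆
      (P x).biUnion
        (fun v => Finset.univ.filter (fun z => z ∉ M ∧ G.Adj v z ∧
          ∃ x' ∈ M, x' ≠ v ∧ G.Adj x' z)) := by
    intro z hz
    obtain ⟨_, ⟨hzM, x1, hx1, _, _, _, h2, _⟩, v, hv, h3⟩ := Finset.mem_filter.1 hz
    refine Finset.mem_biUnion.2 ⟨v, hv, ?_⟩
    refine Finset.mem_filter.2 ⟨Finset.mem_univ _, hzM, h3, x1, hx1, ?_, h2⟩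
    rintro rfl
    exact (hS.priv x hx x1 hv).1 hx1
  have h2 := (Finset.card_le_card h1).trans Finset.card_biUnion_le
  have h3 : ∀ v ∈ P x,
      40 * (Finset.univ.filter (fun z => z ∉ M ∧ G.Adj v z ∧
          ∃ x' ∈ M, x' ≠ v ∧ G.Adj x' z)).card ≤ m := by
    intro v hv
    have h6 := item_nbrs hS.c4 M v
    have h7 := hS.nearP x hx v hv
    omega
  have h4 := Finset.sum_le_card_nsmul (P x) _ m h3
  rw [smul_eq_mul, ← Finset.mul_sum] at h4
  have h5 : (P x).card ≤ m := by
    have h7 := hS.pcard x hx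
    omega
  calc 40 * (Finset.univ.filter (fun z => Shared G M z ∧ ∃ v ∈ P x, G.Adj v z)).card
      ≤ 40 * ∑ v ∈ P x,
        (Finset.univ.filter (fun z => z ∉ M ∧ G.Adj v z ∧
          ∃ x' ∈ M, x' ≠ v ∧ G.Adj x' z)).card := Nat.mul_le_mul_left 40 h2
    _ ≤ (P x).card * m := h4
    _ ≤ m * m := Nat.mul_le_mul_right m h5

end

end Pool.Agent.Helper95.BE
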