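import Pool.Agent.Helper95.BE.S0

/-!
# Stage two: counting in the neighbourhood of a vertex of `M`
-/

set_option autoImplicit false

namespace Pool.Agent.Helper95.BE

open Pool.Agent.Helper95.BC

section

variable {V C : Type} [Fintype V] [Fintype C] {G : SimpleGraph V} {m : ℕ}
  {M : Finset V} {κ : V → C} {P : V → Finset V}

theorem Sys.needs_card (hS : Sys G m M κ P) {f : V → C} (hf : SharedCol G M κ f)
    {x : V} (hx : x ∈ M) :
    (P x).card = (needs G M κ f x).card := by
  classical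
  have hd := hS.pcard x hx
  have hC := hS.cardC
  obtain ⟨I1, hI1⟩ : ∃ I1, I1 = (mrow G M x).image κ := ⟨_, rfl⟩
  obtain ⟨I2, hI2⟩ : ∃ I2, I2 = (srow G M x).image f := ⟨_, rfl⟩
  have c1 : I1.card = (mrow G M x).card := by
    rw [hI1, Finset.card_image_of_injOn]
    intro a ha b hb h
    rw [Finset.mem_coe, mem_mrow] at ha hb
    exact hS.kinj ha.1 hb.1 h
  have c2 : I2.card = (srow G M x).card := by
    rw [hI2, Finset.card_image_of_injOn]
    intro a ha b hb h
    rw [Finset.mem_coe, mem_srow] at ha hb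
    by_contra hne
    exact hf.row a b ha.1 hb.1 hne ⟨x, hx, ha.2, hb.2⟩ h
  have d1 : Disjoint I1 I2 := by
    rw [Finset.disjoint_left]
    intro a h1 h2
    rw [hI1, Finset.mem_image] at h1
    rw [hI2, Finset.mem_image] at h2
    obtain ⟨h, hh, rfl⟩ := h1
    obtain ⟨z, hz, hz2⟩ := h2
    rw [mem_mrow] at hh
    rw [mem_srow] at hz
    exact hf.hr z hz.1 x hx hz.2 h hh.1 hh.2 hz2
  have d2 : κ x ∉ I1 ∪ I2 := by
    intro h
    rw [Finset.mem_union, hI1, hI2, Finset.mem_image, Finset.mem_image] at h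
    rcases h with ⟨h, hh, hk⟩ | ⟨z, hz, hk⟩
    · rw [mem_mrow] at hh
      exact hh.2.ne (hS.kinj hx hh.1 hk.symm)
    · rw [mem_srow] at hz
      exact hf.cen z hz.1 x hx hz.2 hk
  have e : needs G M κ f x = Finset.univ \ insert (κ x) (I1 ∪ I2) := by
    ext a
    rw [mem_needs, Finset.mem_sdiff, Finset.mem_insert, Finset.mem_union, hI1, hI2,
      Finset.mem_image, Finset.mem_image]
    constructor
    · rintro ⟨h1, h2, h3⟩
      refine ⟨Finset.mem_univ _, ?_⟩
      rintro (h | ⟨h, hh, hk⟩ | ⟨z, hz, hk⟩)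
      · exact h1 h
      · rw [mem_mrow] at hh
        exact h2 h hh.1 hh.2 hk.symm
      · rw [mem_srow] at hz
        exact h3 z hz.1 hz.2 hk.symm
    · rintro ⟨_, h⟩
      refine ⟨fun h1 => h (Or.inl h1), ?_, ?_⟩
      · intro h' hh ha hk
        exact h (Or.inr (Or.inl ⟨h', mem_mrow.2 ⟨hh, ha⟩, hk.symm⟩))
      · intro z hz ha hk
        exact h (Or.inr (Or.inr ⟨z, mem_srow.2 ⟨hz, ha⟩, hk.symm⟩))
  have hu : (Finset.univ : Finset C).card = m := by rw [Finset.card_univ, hC]
  have hi : (insert (κ x) (I1 ∪ I2)).card = 1 + (mrow G M x).card + (srow G M x).card := by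
    rw [Finset.card_insert_of_notMem d2, Finset.card_union_of_disjoint d1, c1, c2]
    omega
  rw [e, Finset.card_sdiff_of_subset (Finset.subset_univ _), hu, hi]
  omega

/-- from pcard and the bounds for the rows -/
theorem Sys.P_card (hS : Sys G m M κ P) (hm : 1000 ≤ m) {x : V} (hx : x ∈ M) :
    4 * m ≤ 5 * (P x).card ∧ (P x).card ≤ m := by
  classical
  have h1 := hS.pcard x hx
  have h2 := hS.nearM x hx
  have h3 : (mrow G M x).card ≤ (mates G M x).card := by
    apply Finset.card_le_card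
    intro y hy
    rw [mem_mrow] at hy
    rw [mem_mates]
    exact ⟨hy.1, hy.2.ne.symm, Or.inl hy.2⟩
  have h4 : (srow G M x).card ≤ (mates G M x).card := by
    refine le_trans (Finset.card_le_card ?_) (item_nbrs hS.c4 M x)
    intro z hz
    rw [mem_srow] at hz
    rw [Finset.mem_filter]
    obtain ⟨⟨hzM, c1, g1, c2, g2, hne, g3, g4⟩, h5⟩ := hz
    refine ⟨Finset.mem_univ _, hzM, h5, ?_⟩
    by_cases hc1 : c1 = x
    · exact ⟨c2, g2, fun h => hne (hc1.trans h.symm), g4⟩
    · exact ⟨c1, g1, hc1, g3⟩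
  constructor <;> omega

open Classical in
/-- at most m/40 + m/40 (item_nbrs of v, nearP) -/
theorem Sys.forb_row (hS : Sys G m M κ P) (hm : 1000 ≤ m) (f : V → C) (g : V → V → C)
    (S : Finset V) (hSM : S ⊆ M) {x : V} (hx : x ∈ M) {v : V} (hv : v ∈ P x)
    (Q : Finset C) :
    (Q.filter (fun a => Forb G M P f S g v a)).card ≤ m / 5 := by
  have hvM : v ∉ M := (hS.priv x hx v hv).1
  obtain ⟨N, hN⟩ : ∃ N : Finset V, N = Finset.univ.filter (fun w => w ∉ M ∧ G.Adj v w ∧
      ∃ x ∈ M, x ≠ v ∧ G.Adj x w) := ⟨_, rfl⟩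
  have hNc : 40 * N.card ≤ m := by
    have h1 := item_nbrs hS.c4 M v
    have h2 := hS.nearP x hx v hv
    rw [← hN] at h1
    omega
  obtain ⟨pc, hpc⟩ : ∃ pc : V → V, ∀ v' : V, ∀ x' ∈ M, Priv G M x' v' → pc v' = x' := by
    refine ⟨fun v' => if h : ∃ x' ∈ M, Priv G M x' v' then h.choose else v', ?_⟩
    intro v' x' hx' hp
    have h : ∃ x' ∈ M, Priv G M x' v' := ⟨x', hx', hp⟩
    simp only [dif_pos h]
    exact hp.2.2 _ h.choose_spec.1 h.choose_spec.2.2.1
  have hsub : Q.filter (fun a => Forb G M P f S g v a) ⊆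
      N.image f ∪ N.image (fun v' => g (pc v') v') := by
    intro a ha
    rw [Finset.mem_filter] at ha
    rw [Finset.mem_union, Finset.mem_image, Finset.mem_image]
    rcases ha.2 with ⟨z, hz, h1, h2⟩ | ⟨x', hx', v', hv', h1, h2⟩
    · refine Or.inl ⟨z, ?_, h2⟩
      rw [hN, Finset.mem_filter]
      obtain ⟨hzM, c1, g1, c2, g2, hne, g3, g4⟩ := hz
      exact ⟨Finset.mem_univ _, hzM, h1, c1, g1, fun h => hvM (h ▸ g1), g3⟩
    · have hp := hS.priv x' (hSM hx') v' hv'
      refine Or.inr ⟨v', ?_, ?_⟩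
      · rw [hN, Finset.mem_filter]
        exact ⟨Finset.mem_univ _, hp.1, h1, x', hSM hx', fun h => hvM (h ▸ hSM hx'), hp.2.1⟩
      · rw [hpc v' x' (hSM hx') hp]
        exact h2
  have k1 := Finset.card_le_card hsub
  have k2 := Finset.card_union_le (N.image f) (N.image (fun v' => g (pc v') v'))
  have k5 : (N.image f).card ≤ N.card := Finset.card_image_le
  have k6 : (N.image (fun v' => g (pc v') v')).card ≤ N.card := Finset.card_image_le
  omega

end

end Pool.Agent.Helper95.BE
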