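import Pool.Agent.Helper95.BE.S0

/-!
# Stage two: the forbidden pairs in a column and the crossing edges
-/

set_option autoImplicit false

namespace Pool.Agent.Helper95.BE

open Pool.Agent.Helper95.BC

section

variable {V C : Type} [Fintype V] [Fintype C] {G : SimpleGraph V} {m : ℕ}
  {M : Finset V} {κ : V → C} {P : V → Finset V}

theorem Sys.ne_of_P (hS : Sys G m M κ P) {x x' v : V} (hx : x ∈ M) (hx' : x' ∈ M)
    (hv : v ∈ P x') : x ≠ v := by
  rintro rfl
  exact (hS.priv x' hx' _ hv).1 hx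

open Classical in
/-- at most m/30 + m/7: v ↦ z and v ↦ x' are injective as before -/
theorem Sys.forb_col (hS : Sys G m M κ P) (hm : 1000 ≤ m) (f : V → C) (g : V → V → C)
    (S : Finset V) (hSM : S ⊆ M) (hrow : ∀ x' ∈ S, RowOK G M κ P f x' (g x'))
    {x : V} (hx : x ∈ M) (a : C)
    (hload1 : 30 * (Finset.univ.filter
        (fun z => Shared G M z ∧ f z = a ∧ ∃ v ∈ P x, G.Adj v z)).card ≤ m)
    (hload2 : 7 * (S.filter (fun x' => Hit G P x' (g x') (x, a))).card ≤ m) :
    ((P x).filter (fun v => Forb G M P f S g v a)).card ≤ m / 5 := by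
  set T2 := (P x).filter (fun v => ∃ z, Shared G M z ∧ G.Adj v z ∧ f z = a) with hT2
  set T3 := (P x).filter (fun v => ∃ x' ∈ S, ∃ v' ∈ P x', G.Adj v v' ∧ g x' v' = a) with hT3
  have hsub : (P x).filter (fun v => Forb G M P f S g v a) ⊆ T2 ∪ T3 := by
    intro v hv
    obtain ⟨hvP, hv⟩ := Finset.mem_filter.1 hv
    rcases hv with h | h
    · exact Finset.mem_union_left _ (Finset.mem_filter.2 ⟨hvP, h⟩)
    · exact Finset.mem_union_right _ (Finset.mem_filter.2 ⟨hvP, h⟩)
  have h2 : T2.card ≤ (Finset.univ.filter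
      (fun z => Shared G M z ∧ f z = a ∧ ∃ v ∈ P x, G.Adj v z)).card := by
    refine Finset.card_le_card_of_forall_subsingleton (fun v z => Shared G M z ∧ G.Adj v z)
      ?_ ?_
    · intro v hv
      obtain ⟨hvP, z, hz, h2, h3⟩ := Finset.mem_filter.1 hv
      exact ⟨z, Finset.mem_filter.2 ⟨Finset.mem_univ _, hz, h3, v, hvP, h2⟩, hz, h2⟩
    · rintro z - v ⟨hv, hz, h2⟩ v' ⟨hv', _, h2'⟩
      have hne : x ≠ z := by
        rintro rfl
        exact hz.1 hx
      exact hS.unique hne (hS.priv x hx v (Finset.mem_filter.1 hv).1).2.1 h2.symm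
        (hS.priv x hx v' (Finset.mem_filter.1 hv').1).2.1 h2'.symm
  have h3 : T3.card ≤ (S.filter (fun x' => Hit G P x' (g x') (x, a))).card := by
    refine Finset.card_le_card_of_forall_subsingleton
      (fun v x' => ∃ v' ∈ P x', G.Adj v v' ∧ g x' v' = a) ?_ ?_
    · intro v hv
      obtain ⟨hvP, x', hx', v', h4, h5, h6⟩ := Finset.mem_filter.1 hv
      exact ⟨x', Finset.mem_filter.2 ⟨hx', v', h4, h6, v, hvP, h5.symm⟩, v', h4, h5, h6⟩
    · rintro x' hx' v ⟨hv, v1, h4, h5, h6⟩ v' ⟨hv', v2, h4', h5', h6'⟩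
      have hxS := (Finset.mem_filter.1 hx').1
      have e : v1 = v2 := by
        by_contra hne
        exact (hrow x' hxS).inj v1 h4 v2 h4' hne (h6.trans h6'.symm)
      subst e
      exact hS.unique (hS.ne_of_P hx (hSM hxS) h4)
        (hS.priv x hx v (Finset.mem_filter.1 hv).1).2.1 h5.symm
        (hS.priv x hx v' (Finset.mem_filter.1 hv').1).2.1 h5'.symm
  have h4 := (Finset.card_le_card hsub).trans (Finset.card_union_le _ _)
  omega

open Classical in
/-- v ↦ its neighbour v' ∈ P x' is injective on each P x, and x is a mate of v' -/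
theorem Sys.cross_sum (hS : Sys G m M κ P) (hm : 1000 ≤ m) {x' : V} (hx' : x' ∈ M) :
    40 * ∑ x ∈ M, cross G P x x' ≤ m * m := by
  have h1 : ∀ x ∈ M, cross G P x x' ≤
      ((P x').filter (fun v' => x ∈ mates G M v')).card := by
    intro x hx
    unfold cross
    refine Finset.card_le_card_of_forall_subsingleton
      (fun v v' => v' ∈ P x' ∧ G.Adj v v') ?_ ?_
    · intro v hv
      obtain ⟨hvP, v', h4, h5⟩ := Finset.mem_filter.1 hv
      refine ⟨v', Finset.mem_filter.2 ⟨h4, ?_⟩, h4, h5⟩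
      rw [mem_mates]
      exact ⟨hx, hS.ne_of_P hx hx' h4, Or.inr ⟨v, h5.symm, (hS.priv x hx v hvP).2.1.symm⟩⟩
    · rintro v' - v ⟨hv, h4, h5⟩ v1 ⟨hv1, _, h5'⟩
      exact hS.unique (hS.ne_of_P hx hx' h4)
        (hS.priv x hx v (Finset.mem_filter.1 hv).1).2.1 h5.symm
        (hS.priv x hx v1 (Finset.mem_filter.1 hv1).1).2.1 h5'.symm
  have h2 : ∑ x ∈ M, ((P x').filter (fun v' => x ∈ mates G M v')).card =
      ∑ v' ∈ P x', (M.filter (fun x => x ∈ mates G M v')).card :=
    Finset.sum_card_bipartiteAbove_eq_sum_card_bipartiteBelow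
      (fun x v' => x ∈ mates G M v')
  have h3 : ∀ v' ∈ P x', 40 * (M.filter (fun x => x ∈ mates G M v')).card ≤ m := by
    intro v' hv'
    refine le_trans (Nat.mul_le_mul_left _ (Finset.card_le_card ?_)) (hS.nearP x' hx' v' hv')
    intro c hcc
    exact (Finset.mem_filter.1 hcc).2
  have h4 : (P x').card ≤ m := by
    have h5 := hS.pcard x' hx'
    omega
  calc 40 * ∑ x ∈ M, cross G P x x'
      ≤ 40 * ∑ v' ∈ P x', (M.filter (fun x => x ∈ mates G M v')).card := by
        rw [← h2]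
        exact Nat.mul_le_mul_left _ (Finset.sum_le_sum h1)
    _ = ∑ v' ∈ P x', 40 * (M.filter (fun x => x ∈ mates G M v')).card := by
        rw [Finset.mul_sum]
    _ ≤ ∑ _v' ∈ P x', m := Finset.sum_le_sum h3
    _ = (P x').card * m := by rw [Finset.sum_const, smul_eq_mul]
    _ ≤ m * m := Nat.mul_le_mul_right _ h4

end

end Pool.Agent.Helper95.BE
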