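import Pool.Agent.Helper95.BC.S1
import Pool.Agent.Helper95.BC.S2
import Pool.Agent.Helper95.BE.S7a
import Pool.Agent.Helper95.BE.S7b

/-!
# Stage two: the colouring of the private vertices
-/

set_option autoImplicit false

namespace Pool.Agent.Helper95.BE

open Pool.Agent.Helper95.BC

section

variable {V C : Type} [Fintype V] [Fintype C] {G : SimpleGraph V} {m : ℕ}
  {M : Finset V} {κ : V → C} {P : V → Finset V}

omit [Fintype V] [Fintype C] in
/-- the row `x` is coloured by `a` and the rows in `S` by `g` -/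
theorem good_step {f : V → C} {S : Finset V} {g : V → V → C}
    (hg : (∀ x ∈ S, RowOK G M κ P f x (g x)) ∧ ∀ x ∈ S, ∀ x' ∈ S, PairOK G P g x x')
    {x : V} {a : V → C}
    (h1 : ∀ v ∈ P x, ∀ v' ∈ P x, v ≠ v' → a v ≠ a v')
    (h2 : ∀ v ∈ P x, a v ≠ κ x ∧ (∀ x' ∈ M, G.Adj x x' → a v ≠ κ x') ∧
      ∀ z, Shared G M z → G.Adj x z → a v ≠ f z)
    (h3 : ∀ v ∈ P x, ¬ Forb G M P f S g v (a v)) (g' : V → V → C)
    (hg' : ∀ x' ∈ S, g' x' = g x') (hg'' : g' x = a) {T : Finset V}
    (hT : ∀ x' ∈ T, x' = x ∨ x' ∈ S) :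
    (∀ x ∈ T, RowOK G M κ P f x (g' x)) ∧ ∀ x ∈ T, ∀ x' ∈ T, PairOK G P g' x x' := by
  have hcross : ∀ x' ∈ S, ∀ v ∈ P x, ∀ v' ∈ P x', G.Adj v v' → a v ≠ g x' v' := by
    intro x' hx' v hv v' hv' hadj heq
    exact h3 v hv (Or.inr ⟨x', hx', v', hv', hadj, heq.symm⟩)
  refine ⟨?_, ?_⟩
  · intro c1 hc1
    rcases hT c1 hc1 with rfl | h
    · rw [hg'']
      refine ⟨fun v hv => (h2 v hv).1, fun v hv => (h2 v hv).2.1, fun v hv => (h2 v hv).2.2,
        fun v hv z hz hadj heq => h3 v hv (Or.inl ⟨z, hz, hadj, heq.symm⟩), h1⟩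
    · rw [hg' c1 h]
      exact hg.1 c1 h
  · intro c1 hc1 c2 hc2 v hv v' hv' hadj
    rcases hT c1 hc1 with h4 | h4
    · subst h4
      rcases hT c2 hc2 with h5 | h5
      · subst h5
        rw [hg'']
        exact h1 v hv v' hv' hadj.ne
      · rw [hg'', hg' c2 h5]
        exact hcross c2 h5 v hv v' hv' hadj
    · rcases hT c2 hc2 with h5 | h5
      · subst h5
        rw [hg'', hg' c1 h4]
        exact (hcross c1 h4 v' hv' v hv hadj.symm).symm
      · rw [hg' c1 h4, hg' c2 h5]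
        exact hg.2 c1 h4 c2 h5 v hv v' hv' hadj

/-- the sum of the rates -/
theorem Sys.rate_sum (hS : Sys G m M κ P) (hm : 1000 ≤ m) {x' : V} (hx' : x' ∈ M) :
    ∑ x ∈ M, (cross G P x x' : ℝ) / ((m / 5 : ℕ) : ℝ) ≤ (51 / 400) * m := by
  have h1 := hS.cross_sum hm hx'
  have h2 : (40 : ℝ) * ∑ x ∈ M, (cross G P x x' : ℝ) ≤ (m : ℝ) * m := by
    exact_mod_cast h1
  have h3 : m ≤ 5 * (m / 5) + 4 := by omega
  have h4 : (m : ℝ) ≤ 5 * ((m / 5 : ℕ) : ℝ) + 4 := by exact_mod_cast h3
  have h5 : (1000 : ℝ) ≤ m := by exact_mod_cast hm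
  have h6 : (0 : ℝ) < ((m / 5 : ℕ) : ℝ) := by linarith
  rw [← Finset.sum_div, div_le_iff₀ h6]
  have h7 : (m : ℝ) * (10 * m) ≤ m * (51 * ((m / 5 : ℕ) : ℝ)) :=
    mul_le_mul_of_nonneg_left (by linarith) (by linarith)
  nlinarith

open Classical in
theorem stage_two (hS : Sys G m M κ P) (hm : 1000 ≤ m) (f : V → C)
    (hf : SharedCol G M κ f)
    (hload1 : ∀ x ∈ M, ∀ a : C, 30 * (Finset.univ.filter
        (fun z => Shared G M z ∧ f z = a ∧ ∃ v ∈ P x, G.Adj v z)).card ≤ m)
    (hload : ∀ t : ℕ, (11 / 10 : ℝ) ^ t ≤ 1 * (m : ℝ) ^ 2 * Real.exp ((51 / 4000) * m) →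
      7 * t ≤ m) :
    ∃ g : V → V → C, (∀ x ∈ M, RowOK G M κ P f x (g x)) ∧
      ∀ x ∈ M, ∀ x' ∈ M, PairOK G P g x x' := by
  have hC : Nonempty C := by
    rw [← Fintype.card_pos_iff, hS.cardC]
    omega
  obtain ⟨c0⟩ := hC
  have hs0 : 0 < m / 5 := by omega
  have hsR : (0 : ℝ) < ((m / 5 : ℕ) : ℝ) := by exact_mod_cast hs0
  set J : Finset (V × C) := M ×ˢ (Finset.univ : Finset C) with hJ
  have hJc : (J.card : ℝ) ≤ (m : ℝ) ^ 2 := by
    have h1 : J.card ≤ m * m := by
      rw [hJ, Finset.card_product, Finset.card_univ, hS.cardC, hS.cardM]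
    have h2 : (J.card : ℝ) ≤ (m : ℝ) * m := by exact_mod_cast h1
    rw [pow_two]
    exact h2
  obtain ⟨g, hg, -⟩ := greedy_gen (ι := V) (α := V → C) (γ := V × C) (fun _ => 0) J
    (fun x p => (cross G P x p.1 : ℝ) / ((m / 5 : ℕ) : ℝ)) (fun x p => by positivity)
    (fun x g p => Hit G P x g p)
    (fun S g => (∀ x ∈ S, RowOK G M κ P f x (g x)) ∧ ∀ x ∈ S, ∀ x' ∈ S, PairOK G P g x x')
    ⟨fun _ _ => c0, by simp⟩ M (by
      intro S hSM x hx hxS _ g hg hpot
      have hload2 : ∀ a : C,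
          7 * (S.filter (fun x' => Hit G P x' (g x') (x, a))).card ≤ m := by
        intro a
        refine hload _ ?_
        have h1 := hpot (x, a) (Finset.mem_product.2 ⟨hx, Finset.mem_univ a⟩)
        refine h1.trans ?_
        have h2 := prod_le_exp S M hSM
          (fun x' => (cross G P x' x : ℝ) / ((m / 5 : ℕ) : ℝ)) (fun x' => by positivity)
          ((51 / 400) * m) (hS.rate_sum hm hx)
        have h3 : Real.exp ((51 / 400) * (m : ℝ) / 10) = Real.exp ((51 / 4000) * m) := by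
          congr 1
          ring
        rw [h3] at h2
        rw [one_mul]
        exact mul_le_mul hJc h2 (Finset.prod_nonneg fun i _ => by positivity) (by positivity)
      have hcard := hS.P_card hm hx
      obtain ⟨A, hA1, hA2, hA3⟩ := disjoint_matchings (P x)
        (needs G M κ f x) (hS.needs_card hf hx)
        (fun v a => Forb G M P f S g v a) (m / 5)
        (fun v hv => hS.forb_row hm f g S hSM hx hv _)
        (fun a _ => hS.forb_col hm f g S hSM hg.1 hx a (hload1 x hx a) (hload2 a))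
        (m / 5) (by omega)
      refine ⟨A, ?_, ?_, ?_⟩
      · rw [← Finset.card_pos, hA1]
        exact hs0
      · intro a ha
        obtain ⟨h1, h2, h3⟩ := hA2 a ha
        refine good_step hg (x := x) (a := a) ?_ ?_ ?_ _ ?_ ?_ ?_
        · intro v hv v' hv' hne heq
          exact hne (h1 (Finset.mem_coe.2 hv) (Finset.mem_coe.2 hv') heq)
        · intro v hv
          exact mem_needs.1 (h2 v hv)
        · intro v hv
          exact h3 v hv
        · intro x' hx'
          refine Function.update_of_ne ?_ _ _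
          rintro rfl
          exact hxS hx'
        · exact Function.update_self _ _ _
        · intro x' hx'
          exact Finset.mem_insert.1 hx'
      · rintro ⟨x', a0⟩ _
        have h1 : (A.filter (fun a => Hit G P x a (x', a0))).card ≤ cross G P x x' := by
          unfold cross
          refine Finset.card_le_card_of_forall_subsingleton
            (fun a v => v ∈ P x ∧ a v = a0) ?_ ?_
          · intro a ha
            obtain ⟨_, v, h4, h5, v', h6, h7⟩ := Finset.mem_filter.1 ha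
            exact ⟨v, Finset.mem_filter.2 ⟨h4, v', h6, h7⟩, h4, h5⟩
          · rintro v - a ⟨ha, h4, h5⟩ a' ⟨ha', _, h5'⟩
            by_contra hne
            exact hA3 a (Finset.mem_filter.1 ha).1 a' (Finset.mem_filter.1 ha').1 hne v
              h4 (h5.trans h5'.symm)
        rw [hA1, div_mul_cancel₀ _ hsR.ne']
        exact_mod_cast h1)
  exact ⟨g, hg⟩

end

end Pool.Agent.Helper95.BE
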