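import Pool.Agent.Helper95.BE.S0

/-!
# The colouring of `M`, the shared vertices and the sets `P x`
-/

set_option autoImplicit false

namespace Pool.Agent.Helper95.BE

open Pool.Agent.Helper95.BC

variable {V C : Type} [Fintype V] [Fintype C] {G : SimpleGraph V} {m : ℕ}
  {M : Finset V} {κ : V → C} {P : V → Finset V}

/-- the colouring of `M`, the shared vertices and the sets `P x`; `x` sees `κ` on its neighbours in
`M`, `f` on the shared ones and `g x` on `P x`: `m - 1` different colours, all different from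
`κ x` -/
theorem structure_colouring (hS : Sys G m M κ P) (f : V → C) (hf : SharedCol G M κ f)
    (g : V → V → C) (hg1 : ∀ x ∈ M, RowOK G M κ P f x (g x))
    (hg2 : ∀ x ∈ M, ∀ x' ∈ M, PairOK G P g x x') :
    ∃ (T : Finset V) (φ : V → C), (∀ v, v ∈ T ↔ v ∈ M ∨ Shared G M v ∨ ∃ x ∈ M, v ∈ P x) ∧
      (∀ u ∈ T, ∀ v ∈ T, G.Adj u v → φ u ≠ φ v) ∧
      ∀ x ∈ M, φ x = κ x ∧ ∀ a, a ≠ κ x → ∃ w ∈ T, G.Adj x w ∧ φ w = a := by
  classical
  let ψ0 : V → C := fun v => if v ∈ M then κ v else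
    if Shared G M v then f v else
      if h : ∃ x ∈ M, v ∈ P x then g h.choose v else κ v
  have e1 : ∀ v ∈ M, ψ0 v = κ v := fun v hv => if_pos hv
  have e3 : ∀ z, Shared G M z → ψ0 z = f z := by
    intro z hz
    show (if z ∈ M then κ z else
      if Shared G M z then f z else
        if h : ∃ x ∈ M, z ∈ P x then g h.choose z else κ z) = _
    rw [if_neg hz.1, if_pos hz]
  have e4 : ∀ x ∈ M, ∀ v ∈ P x, ψ0 v = g x v := by
    intro x hx v hv
    have hp := hS.priv x hx v hv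
    have h : ∃ x' ∈ M, v ∈ P x' := ⟨x, hx, hv⟩
    have hns : ¬ Shared G M v := fun hs => hs.not_priv hp
    have h1 : ψ0 v = g h.choose v := by
      show (if v ∈ M then κ v else
        if Shared G M v then f v else
          if h : ∃ x' ∈ M, v ∈ P x' then g h.choose v else κ v) = _
      rw [if_neg hp.1, if_neg hns, dif_pos h]
    have h2 : h.choose = x :=
      hp.2.2 _ h.choose_spec.1 (hS.priv _ h.choose_spec.1 v h.choose_spec.2).2.1
    rw [h1, h2]
  -- proper on the three kinds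
  have hsym : ∀ {p q : V → Prop}, (∀ u v, p u → q v → G.Adj u v → ψ0 u ≠ ψ0 v) →
      ∀ u v, q u → p v → G.Adj u v → ψ0 u ≠ ψ0 v :=
    fun h u v hu hv huv => (h v u hv hu huv.symm).symm
  have p11 : ∀ u v, u ∈ M → v ∈ M → G.Adj u v → ψ0 u ≠ ψ0 v := by
    intro u v hu hv huv h
    rw [e1 u hu, e1 v hv] at h
    exact huv.ne (hS.kinj hu hv h)
  have p13 : ∀ u v, u ∈ M → Shared G M v → G.Adj u v → ψ0 u ≠ ψ0 v := by
    intro u v hu hv huv
    rw [e1 u hu, e3 v hv]
    exact (hf.cen v hv u hu huv).symm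
  have p14 : ∀ u v, u ∈ M → (∃ x ∈ M, v ∈ P x) → G.Adj u v → ψ0 u ≠ ψ0 v := by
    rintro u v hu ⟨x, hx, hv⟩ huv
    have hux : u = x := (hS.priv x hx v hv).2.2 u hu huv
    subst hux
    rw [e1 u hu, e4 u hx v hv]
    exact ((hg1 u hx).cen v hv).symm
  have p33 : ∀ u v, Shared G M u → Shared G M v → G.Adj u v → ψ0 u ≠ ψ0 v := by
    intro u v hu hv huv
    rw [e3 u hu, e3 v hv]
    exact hf.adj u v hu hv huv
  have p34 : ∀ u v, Shared G M u → (∃ x ∈ M, v ∈ P x) → G.Adj u v → ψ0 u ≠ ψ0 v := by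
    rintro u v hu ⟨x, hx, hv⟩ huv
    rw [e3 u hu, e4 x hx v hv]
    exact ((hg1 x hx).sn v hv u hu huv.symm).symm
  have p44 : ∀ u v, (∃ x ∈ M, u ∈ P x) → (∃ x ∈ M, v ∈ P x) → G.Adj u v → ψ0 u ≠ ψ0 v := by
    rintro u v ⟨x, hx, hu⟩ ⟨x', hx', hv⟩ huv
    rw [e4 x hx u hu, e4 x' hx' v hv]
    exact hg2 x hx x' hx' u hu v hv huv
  have hprop : ∀ u v,
      (u ∈ M ∨ Shared G M u ∨ ∃ x ∈ M, u ∈ P x) →
      (v ∈ M ∨ Shared G M v ∨ ∃ x ∈ M, v ∈ P x) →
        G.Adj u v → ψ0 u ≠ ψ0 v := by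
    rintro u v (hu | hu | hu) (hv | hv | hv)
    · exact p11 u v hu hv
    · exact p13 u v hu hv
    · exact p14 u v hu hv
    · exact hsym p13 u v hu hv
    · exact p33 u v hu hv
    · exact p34 u v hu hv
    · exact hsym p14 u v hu hv
    · exact hsym p34 u v hu hv
    · exact p44 u v hu hv
  have hmem : ∀ v, v ∈ Finset.univ.filter (fun v => v ∈ M ∨ Shared G M v ∨ ∃ x ∈ M, v ∈ P x) ↔
      v ∈ M ∨ Shared G M v ∨ ∃ x ∈ M, v ∈ P x := by
    intro v
    simp only [Finset.mem_filter, Finset.mem_univ, true_and]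
  refine ⟨Finset.univ.filter (fun v => v ∈ M ∨ Shared G M v ∨ ∃ x ∈ M, v ∈ P x), ψ0, hmem, ?_,
    fun x hx => ⟨e1 x hx, ?_⟩⟩
  · intro u hu v hv huv
    exact hprop u v ((hmem u).1 hu) ((hmem v).1 hv) huv
  -- the colours of the neighbours of `x` in the three sets are different
  have d1 : Disjoint (mrow G M x) (srow G M x) := by
    rw [Finset.disjoint_left]
    intro v hv hv'
    exact (mem_srow.1 hv').1.1 (mem_mrow.1 hv).1
  have d2 : Disjoint (mrow G M x ∪ srow G M x) (P x) := by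
    rw [Finset.disjoint_left]
    intro v hv hv'
    have hp := hS.priv x hx v hv'
    rcases Finset.mem_union.1 hv with h | h
    · exact hp.1 (mem_mrow.1 h).1
    · exact (mem_srow.1 h).1.not_priv hp
  have hU : ((mrow G M x ∪ srow G M x) ∪ P x).card + 1 = m := by
    rw [Finset.card_union_of_disjoint d2, Finset.card_union_of_disjoint d1]
    have := hS.pcard x hx
    omega
  have hadj : ∀ v ∈ (mrow G M x ∪ srow G M x) ∪ P x, G.Adj x v := by
    intro v hv
    rcases Finset.mem_union.1 hv with h | h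
    · rcases Finset.mem_union.1 h with h | h
      · exact (mem_mrow.1 h).2
      · exact (mem_srow.1 h).2
    · exact (hS.priv x hx v h).2.1
  have hkind : ∀ v ∈ (mrow G M x ∪ srow G M x) ∪ P x,
      v ∈ M ∨ Shared G M v ∨ ∃ x ∈ M, v ∈ P x := by
    intro v hv
    rcases Finset.mem_union.1 hv with h | h
    · rcases Finset.mem_union.1 h with h | h
      · exact Or.inl (mem_mrow.1 h).1
      · exact Or.inr (Or.inl (mem_srow.1 h).1)
    · exact Or.inr (Or.inr ⟨x, hx, h⟩)
  have q12 : ∀ v v', v ∈ mrow G M x → v' ∈ srow G M x → ψ0 v ≠ ψ0 v' := by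
    intro v v' hv hv' he
    rw [mem_mrow] at hv
    rw [mem_srow] at hv'
    rw [e1 v hv.1, e3 v' hv'.1] at he
    exact hf.hr v' hv'.1 x hx hv'.2 v hv.1 hv.2 he.symm
  have q13 : ∀ v v', v ∈ mrow G M x → v' ∈ P x → ψ0 v ≠ ψ0 v' := by
    intro v v' hv hv' he
    rw [mem_mrow] at hv
    rw [e1 v hv.1, e4 x hx v' hv'] at he
    exact (hg1 x hx).hr v' hv' v hv.1 hv.2 he.symm
  have q23 : ∀ v v', v ∈ srow G M x → v' ∈ P x → ψ0 v ≠ ψ0 v' := by
    intro v v' hv hv' he
    rw [mem_srow] at hv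
    rw [e3 v hv.1, e4 x hx v' hv'] at he
    exact (hg1 x hx).sr v' hv' v hv.1 hv.2 he.symm
  have hinj : Set.InjOn ψ0 (((mrow G M x ∪ srow G M x) ∪ P x : Finset V) : Set V) := by
    intro v hv v' hv' he
    rw [Finset.mem_coe, Finset.mem_union, Finset.mem_union] at hv hv'
    by_contra hne
    rcases hv with (hv | hv) | hv <;> rcases hv' with (hv' | hv') | hv'
    · rw [mem_mrow] at hv hv'
      rw [e1 v hv.1, e1 v' hv'.1] at he
      exact hne (hS.kinj hv.1 hv'.1 he)
    · exact q12 v v' hv hv' he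
    · exact q13 v v' hv hv' he
    · exact q12 v' v hv' hv he.symm
    · rw [mem_srow] at hv hv'
      rw [e3 v hv.1, e3 v' hv'.1] at he
      exact hf.row v v' hv.1 hv'.1 hne ⟨x, hx, hv.2, hv'.2⟩ he
    · exact q23 v v' hv hv' he
    · exact q13 v' v hv' hv he.symm
    · exact q23 v' v hv' hv he.symm
    · rw [e4 x hx v hv, e4 x hx v' hv'] at he
      exact (hg1 x hx).inj v hv v' hv' hne he
  have hcard : (((mrow G M x ∪ srow G M x) ∪ P x).image ψ0).card + 1 = Fintype.card C := by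
    rw [Finset.card_image_of_injOn hinj, hU, hS.cardC]
  have hcn : κ x ∉ ((mrow G M x ∪ srow G M x) ∪ P x).image ψ0 := by
    intro h
    obtain ⟨v, hv, hvc⟩ := Finset.mem_image.1 h
    exact hprop x v (Or.inl hx) (hkind v hv) (hadj v hv) ((e1 x hx).trans hvc.symm)
  have hall : insert (κ x) (((mrow G M x ∪ srow G M x) ∪ P x).image ψ0) = Finset.univ := by
    apply Finset.eq_univ_of_card
    rw [Finset.card_insert_of_notMem hcn, hcard]
  intro a ha
  have ha' : a ∈ insert (κ x) (((mrow G M x ∪ srow G M x) ∪ P x).image ψ0) := by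
    rw [hall]
    exact Finset.mem_univ a
  rcases Finset.mem_insert.1 ha' with h | h
  · exact absurd h ha
  · obtain ⟨w, hw, hwa⟩ := Finset.mem_image.1 h
    exact ⟨w, (hmem w).2 (hkind w hw), hadj w hw, hwa⟩

end Pool.Agent.Helper95.BE
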