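import Pool.Agent.Helper95.BC.Girth
import Pool.Agent.Helper95.BC.S10
import Pool.Agent.Helper95.BD.S12
import Pool.Agent.Helper95.BD.S10
import Pool.Agent.Helper95.BE.S3c
import Pool.Agent.Helper95.BE.S3b
import Pool.Agent.Helper95.BE.S6c
import Pool.Agent.Helper95.BE.S7c
import Pool.Agent.Helper95.BE.S8c

/-!
# Assembly: spread out dense vertices
-/

set_option autoImplicit false

namespace Pool.Agent.Helper95.BE

open Pool.Agent.Helper95.BC

open Classical in
/-- `m` = the number of colours -/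
theorem spread_core : ∃ m₀ : ℕ, ∀ m : ℕ, m₀ ≤ m → ∀ (V : Type) [Fintype V] (G : SimpleGraph V)
    (H D : Finset V), C4Free G → (∀ v, v ∉ H → (nbr G v).card ≤ m) → H ⊆ D → H.card ≤ m →
    (∀ v ∈ D, m ≤ (nbr G v).card + 1) → m ≤ D.card → D.card ≤ 400 * m ^ 2 →
    (Finset.univ.filter (fun v => v ∉ H ∧ (nbr G v).card = m)).card ≤ 200 * m ^ 2 →
    (∀ y, 200 * (mates G D y).card ≤ D.card) → (∀ y, 200 * (mates G H y).card ≤ m + 1) →
    m ≤ bChrom G := by
  obtain ⟨m₁, h1⟩ := load_bound 200000 4 60 (1 / 1000) (by norm_num)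
  obtain ⟨m₂, h2⟩ := load_bound 1 2 30 (1 / 340) (by norm_num)
  obtain ⟨m₃, h3⟩ := load_bound 1 2 7 (51 / 4000) (by norm_num)
  obtain ⟨m₅, h5⟩ := Pool.Agent.Helper95.BD.extend_tight
  refine ⟨m₁ + m₂ + m₃ + m₅ + 1000, ?_⟩
  intro m hm V _ G H D hC4 hH hHD hHc hDdeg hD1 hD2 hB hDn hHn
  have hm0 : 1000 ≤ m := by omega
  -- the sets `N x`
  have hN : ∀ x, ∃ Nx : Finset V, Nx ⊆ nbr G x ∧ Nx.card ≤ 2 * m ∧
      (m ≤ (nbr G x).card + 1 → m ≤ Nx.card + 1) := by
    intro x
    by_cases h : (nbr G x).card ≤ 2 * m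
    · exact ⟨nbr G x, Finset.Subset.refl _, h, id⟩
    · rw [not_le] at h
      obtain ⟨Nx, hNx, hNxc⟩ := Finset.exists_subset_card_eq h.le
      exact ⟨Nx, hNx, hNxc.le, fun _ => by omega⟩
  choose N hN1 hN2 hN3 using hN
  obtain ⟨M, hHM, hMD, hMc, hMn⟩ := choose_M' m (by omega) (h1 m (by omega)) V G hC4 H D
    (Finset.univ.filter (fun v => v ∉ H ∧ (nbr G v).card = m)) N
    (fun x _ => hN2 x) hHD hHc hD1 hD2 hB hDn hHn
  have hnearM : ∀ x ∈ M, 40 * (mates G M x).card ≤ m := fun x hx => hMn x (Or.inl (hMD hx))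
  have hMH : ∀ v, v ∉ M → v ∉ H := fun v hv h => hv (hHM h)
  obtain ⟨P, hP1, hP2, hP3⟩ := choose_P G m M N (fun x _ => hN1 x)
    (fun x hx => hN3 x (hDdeg x (hMD hx)))
    (fun x hx => by
      have h4 := row_cards G hC4 M x hx
      have h5 := hnearM x hx
      omega)
  -- the colours of M
  have : NeZero m := ⟨by omega⟩
  obtain ⟨κ, hκ⟩ : ∃ κ : V → Fin m, Set.InjOn κ (M : Set V) := by
    have h3 : Nonempty ((M : Set V) ↪ Fin m) := by
      refine Function.Embedding.nonempty_of_card_le ?_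
      simpa using hMc.le
    obtain ⟨e⟩ := h3
    refine ⟨fun v => if hv : v ∈ M then e ⟨v, hv⟩ else 0, ?_⟩
    intro v hv w hw hvw
    have hv' : v ∈ M := hv
    have hw' : w ∈ M := hw
    simp only [hv', hw', dif_pos] at hvw
    exact congrArg Subtype.val (e.injective hvw)
  have hS : Sys G m M κ P :=
    { c4 := hC4
      cardC := Fintype.card_fin m
      cardM := hMc
      deg := fun v hv => hH v (hMH v hv)
      kinj := hκ
      priv := hP2
      pcard := hP3
      nearM := hnearM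
      nearS := fun z hz => by
        obtain ⟨_, x, hx, x', hx', hne, h4, h5⟩ := hz
        exact hMn z (Or.inr (Or.inr (Or.inl ⟨x, hMD hx, x', hMD hx', hne, h4, h5⟩)))
      nearP := fun x hx v hv => hMn v (Or.inr (Or.inr (Or.inr ⟨x, hMD hx, hP1 x hx hv⟩))) }
  obtain ⟨f, hf, hf1⟩ := stage_one hS hm0 (h2 m (by omega))
  obtain ⟨g, hg1, hg2⟩ := stage_two hS hm0 f hf hf1 (h3 m (by omega))
  obtain ⟨T, φ, hT, hφ1, hφ2⟩ := structure_colouring hS f hf g hg1 hg2
  have hTM : ∀ v, v ∉ T → v ∉ M := fun v hv h => hv ((hT v).2 (Or.inl h))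
  obtain ⟨ψ, hψ1, hψ2⟩ := h5 m (by omega) V (Fin m) G T φ hC4 (Fintype.card_fin m) hφ1
    (fun v hv => hH v (hMH v (hTM v hv)))
    ((Finset.card_le_card (by
      intro v hv
      rw [Finset.mem_filter] at hv ⊢
      exact ⟨hv.1, hMH v (hTM v hv.2.1), hv.2.2⟩)).trans hB)
    (by
      intro v hv hvm
      have h7 := hMn v (Or.inr (Or.inl (Finset.mem_filter.2
        ⟨Finset.mem_univ _, hMH v (hTM v hv), hvm⟩)))
      have h8 := item_nbrs hC4 M v
      have h9 : (nbr G v ∩ T).card ≤ (mates G M v).card +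
          (Finset.univ.filter (fun w => w ∉ M ∧ G.Adj v w ∧
            ∃ x ∈ M, x ≠ v ∧ G.Adj x w)).card := by
        refine le_trans (Finset.card_le_card ?_) (Finset.card_union_le _ _)
        intro w hw
        rw [Finset.mem_inter, mem_nbr] at hw
        obtain ⟨hvw, hwT⟩ := hw
        rw [Finset.mem_union, mem_mates, Finset.mem_filter]
        by_cases hwM : w ∈ M
        · exact Or.inl ⟨hwM, hvw.ne', Or.inl hvw⟩
        · right
          refine ⟨Finset.mem_univ _, hwM, hvw, ?_⟩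
          have hvM := hTM v hv
          rcases (hT w).1 hwT with h | h | ⟨x, hx, hxw⟩
          · exact absurd h hwM
          · obtain ⟨_, x, hx, _, _, _, hxw, _⟩ := h
            exact ⟨x, hx, fun h' => hvM (h' ▸ hx), hxw⟩
          · exact ⟨x, hx, fun h' => hvM (h' ▸ hx), (hP2 x hx w hxw).2.1⟩
      omega)
  refine le_csSup (bddAbove_bCol G) ⟨ψ, hψ1, fun c => ?_⟩
  -- `κ` is onto
  have h4 : (M.image κ).card = m := by
    rw [Finset.card_image_of_injOn hκ, hMc]
  have h5 : M.image κ = Finset.univ := by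
    refine Finset.eq_univ_of_card _ ?_
    rw [h4, Fintype.card_fin]
  have h6 : c ∈ M.image κ := by rw [h5]; exact Finset.mem_univ c
  obtain ⟨x, hx, rfl⟩ := Finset.mem_image.1 h6
  have h7 : ψ x = κ x := by rw [hψ2 x ((hT x).2 (Or.inl hx)), (hφ2 x hx).1]
  refine ⟨x, h7, fun a ha => ?_⟩
  rw [h7] at ha
  obtain ⟨w, hw, hxw, hwa⟩ := (hφ2 x hx).2 a ha
  exact ⟨w, hxw, by rw [hψ2 w hw, hwa]⟩

open Classical in
theorem spread_zero : ∃ m₀ : ℕ, ∀ (V : Type) [Fintype V] (G : SimpleGraph V), C4Free G →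
    m₀ ≤ mDegree G → ∀ D : Finset V, mDegree G ≤ D.card →
    (∀ v ∈ D, mDegree G ≤ (nbr G v).card + 1) → (∀ v, mDegree G ≤ (nbr G v).card → v ∈ D) →
    (∀ y, 200 * (mates G D y).card ≤ D.card) →
    (∀ y, 200 * (mates G (D.filter (fun x => mDegree G ≤ (nbr G x).card)) y).card ≤
      mDegree G) → mDegree G ≤ bChrom G := by
  obtain ⟨m₁, h1⟩ := spread_core
  obtain ⟨m₂, h2⟩ := Pool.Agent.Helper95.BD.many_zero
  refine ⟨m₁ + m₂ + 1, ?_⟩
  intro V _ G hC hm D hD1 hDdeg hDH hDn hHn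
  by_cases hbig : D.card ≤ 400 * mDegree G ^ 2
  · obtain ⟨_, hHcard⟩ := mDegree_spec G
    have hHeq : ∀ v, v ∈ D.filter (fun x => mDegree G ≤ (nbr G x).card) ↔
        mDegree G ≤ (nbr G v).card := fun v => by
      rw [Finset.mem_filter]
      exact ⟨fun h => h.2, fun h => ⟨hDH v h, h⟩⟩
    refine h1 (mDegree G) (by omega) V G (D.filter (fun x => mDegree G ≤ (nbr G x).card)) D hC
      (fun v hv => ?_) (Finset.filter_subset _ _)
      ((Finset.card_le_card (Finset.filter_subset_filter _ (Finset.subset_univ _))).trans hHcard)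
      hDdeg hD1 hbig ?_ hDn (fun y => (hHn y).trans (Nat.le_succ _))
    · rw [hHeq] at hv
      omega
    · rw [Finset.card_eq_zero.2]
      · exact Nat.zero_le _
      · refine Finset.filter_eq_empty_iff.2 ?_
        rintro v - ⟨hv, hvm⟩
        rw [hHeq] at hv
        omega
  · refine h2 V G hC (by omega) (mDegree G) D (by omega) ?_ hDdeg fun v hv => ?_
    · rw [not_le] at hbig
      nlinarith
    · exact (Finset.card_le_card Finset.inter_subset_left).trans hv.le

open Classical in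
theorem spread_one : ∃ m₀ : ℕ, ∀ (V : Type) [Fintype V] (G : SimpleGraph V), C4Free G →
    m₀ ≤ mDegree G → ∀ D : Finset V, mDegree G ≤ D.card + 1 →
    (∀ v ∈ D, mDegree G ≤ (nbr G v).card + 2) → (∀ v, mDegree G ≤ (nbr G v).card → v ∈ D) →
    (∀ y, 200 * (mates G D y).card ≤ D.card) →
    (∀ y, 200 * (mates G (D.filter (fun x => mDegree G ≤ (nbr G x).card)) y).card ≤
      mDegree G) → mDegree G ≤ bChrom G + 1 := by
  obtain ⟨m₁, h1⟩ := spread_core
  obtain ⟨m₂, h2⟩ := Pool.Agent.Helper95.BD.many_zero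
  obtain ⟨m₃, h3⟩ := Pool.Agent.Helper95.BD.many_one
  obtain ⟨m₄, h4⟩ := spread_zero
  refine ⟨m₁ + m₂ + m₃ + m₄ + 100, ?_⟩
  intro V _ G hC hm D hD1 hDdeg hDH hDn hHn
  -- many dense vertices
  set A : Finset V := Finset.univ.filter (fun v => mDegree G ≤ (nbr G v).card + 1) with hA
  have hmemA : ∀ v, v ∈ A ↔ mDegree G ≤ (nbr G v).card + 1 := fun v => by simp [hA]
  by_cases hA1 : 100 * mDegree G * mDegree G ≤ A.card
  · refine (h2 V G hC (by omega) (mDegree G) A (by omega) hA1 (fun v hv => (hmemA v).1 hv)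
      fun v hv => ?_).trans (Nat.le_succ _)
    exact (Finset.card_le_card Finset.inter_subset_left).trans hv.le
  by_cases hbig : 300 * mDegree G * mDegree G ≤ D.card
  · exact h3 V G hC (by omega) (mDegree G) D (by omega) hbig hDdeg fun v hv =>
      (Finset.card_le_card Finset.inter_subset_left).trans hv.le
  obtain ⟨_, hHcard⟩ := mDegree_spec G
  set H : Finset V := D.filter (fun x => mDegree G ≤ (nbr G x).card) with hHdef
  have hHeq : ∀ v, v ∈ H ↔ mDegree G ≤ (nbr G v).card := fun v => by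
    rw [hHdef, Finset.mem_filter]
    exact ⟨fun h => h.2, fun h => ⟨hDH v h, h⟩⟩
  by_cases hHm : mDegree G ≤ H.card
  · -- `m` vertices of degree at least `m`
    refine (h4 V G hC (by omega) H hHm (fun v hv => ?_) (fun v hv => (hHeq v).2 hv)
      (fun y => (hHn y).trans hHm) (fun y => ?_)).trans (Nat.le_succ _)
    · have := (hHeq v).1 hv
      omega
    · refine le_trans (Nat.mul_le_mul_left _ (Finset.card_le_card ?_)) (hHn y)
      intro x hx
      rw [mem_mates, Finset.mem_filter] at hx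
      rw [mem_mates]
      exact ⟨hx.1.1, hx.2⟩
  rw [not_le] at hA1 hbig hHm
  have hg := h1 (mDegree G - 1) (by omega) V G H D hC
  clear h1 h2 h3 h4
  generalize mDegree G = m at *
  obtain ⟨k, rfl⟩ : ∃ k, m = k + 1 := ⟨m - 1, by omega⟩
  have hk : k + 1 - 1 = k := rfl
  rw [hk] at hg
  refine Nat.succ_le_succ (hg (fun v hv => ?_) (Finset.filter_subset _ _) (by omega)
    (fun v hv => ?_) (by omega) ?_ ?_ hDn hHn)
  · rw [hHeq] at hv
    omega
  · have := hDdeg v hv
    omega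
  · nlinarith
  · have h5 : (Finset.univ.filter (fun v => v ∉ H ∧ (nbr G v).card = k)).card ≤ A.card := by
      refine Finset.card_le_card ?_
      intro v hv
      rw [Finset.mem_filter] at hv
      rw [hmemA]
      omega
    nlinarith

open Classical in
theorem spread_all : ∃ m₀ : ℕ, ∀ (V : Type) [Fintype V] (G : SimpleGraph V),
    5 ≤ G.egirth ∨ C4Free G → m₀ ≤ mDegree G → ∀ (i : ℕ) (D : Finset V), i ≤ 1 →
    mDegree G ≤ D.card + i → (∀ v ∈ D, mDegree G ≤ (nbr G v).card + 1 + i) →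
    (∀ v, mDegree G ≤ (nbr G v).card → v ∈ D) →
    (∀ y, 200 * (D.filter (fun x => Near G y x)).card ≤ D.card) →
    (∀ y, 200 * (D.filter (fun x => mDegree G ≤ (nbr G x).card ∧ Near G y x)).card ≤
      mDegree G) → mDegree G ≤ bChrom G + i := by
  obtain ⟨m₁, h1⟩ := spread_zero
  obtain ⟨m₂, h2⟩ := spread_one
  refine ⟨m₁ + m₂, ?_⟩
  intro V _ G hG hm i D hi hD1 hDdeg hDH hDn hHn
  have hC : C4Free G := hG.elim (c4Free_of_egirth G) id
  have hHn' : ∀ y, 200 * (mates G (D.filter (fun x => mDegree G ≤ (nbr G x).card)) y).card ≤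
      mDegree G := by
    intro y
    refine le_trans (Nat.mul_le_mul_left _ (Finset.card_le_card ?_)) (hHn y)
    intro x hx
    rw [mem_mates, Finset.mem_filter] at hx
    rw [Finset.mem_filter]
    exact ⟨hx.1.1, hx.1.2, hx.2⟩
  rcases Nat.lt_or_ge i 1 with h | h
  · obtain rfl : i = 0 := by omega
    exact h1 V G hC (by omega) D hD1 hDdeg hDH hDn hHn'
  · obtain rfl : i = 1 := by omega
    exact h2 V G hC (by omega) D hD1 hDdeg hDH hDn hHn'

end Pool.Agent.Helper95.BE
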